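import Pool.Agent.Y536.SH.Tame
import Pool.Agent.Y205.FW.Inf
import Pool.Agent.Y205.MD.Sub
import Pool.Agent.Y205.AV.Main

set_option autoImplicit false

/-!
# Regular vectors of multiplicities

The vectors of multiplicities for which the dimension of the linear system is known to be the
expected one in every degree, and those which arise from them by adding simple points.
-/

namespace Pool.Agent.Y939.NC

open MvPolynomial Pool.Agent.H932R3 Pool.Agent.TH442.NF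

/-- Regular vectors of multiplicities on `k` points: constant ones (`k ≥ 37` or `k = 21`); those
with the values `m`, `m + 1` (`k ≥ N0`, or `4 ∣ k ≥ 144`, or `k = 4 ^ (j + 2)`, `9 * 4 ^ (j + 1)`,
`13 * 4 ^ j`); those with at most `r` different values in `[1, μ]`, if
`40000 r μ ^ 2 ≤ ∑ v i ^ 2`; and all those with values at most `μ`, if
`25000 (μ + 1) ^ 2 ≤ ∑ v i`, or `μ ≥ 2` and `150 μ ^ 3 ≤ ∑ v i`. -/
def Regular (N0 : ℕ) {k : ℕ} (v : Fin k → ℕ) : Prop :=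
  ((37 ≤ k ∨ k = 21) ∧ ∃ m, 1 ≤ m ∧ ∀ i, v i = m) ∨
  ((N0 ≤ k ∨ (144 ≤ k ∧ 4 ∣ k) ∨ ∃ j, k = 4 ^ (j + 2) ∨ k = 9 * 4 ^ (j + 1) ∨ k = 13 * 4 ^ j) ∧
    ∃ m, 1 ≤ m ∧ ∀ i, v i = m ∨ v i = m + 1) ∨
  (1 ≤ k ∧ (∀ i, 1 ≤ v i) ∧ ∃ μ r : ℕ, (∀ i, v i ≤ μ) ∧ (Finset.univ.image v).card ≤ r ∧
    40000 * r * μ ^ 2 ≤ ∑ i, v i ^ 2) ∨
  ∃ μ : ℕ, (∀ i, v i ≤ μ) ∧ (25000 * (μ + 1) ^ 2 ≤ ∑ i, v i ∨ 2 ≤ μ ∧ 150 * μ ^ 3 ≤ ∑ i, v i)

/-- The vector `v` is regular on some of the points and at most `1` at the others. -/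
def AlmostRegular (N0 : ℕ) {n : ℕ} (v : Fin n → ℕ) : Prop :=
  ∃ (k : ℕ) (e : Fin k ↪ Fin n), Regular N0 (fun j => v (e j)) ∧
    ∀ i, i ∉ Set.range e → v i ≤ 1

/-- The class `(d; w)`: on some `k` of the points `w` is at most a regular vector `v`, equal to it or
with `χ (d; v) ≥ 0`, and `w` is at most `1` at the other points. -/
def Below (N0 : ℕ) {n : ℕ} (d : ℕ) (w : Fin n → ℕ) : Prop :=
  ∃ (k : ℕ) (e : Fin k ↪ Fin n) (v : Fin k → ℕ), Regular N0 v ∧ (∀ i, i ∉ Set.range e → w i ≤ 1) ∧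
    (∀ j, w (e j) ≤ v j) ∧ ((∀ j, w (e j) = v j) ∨ ∑ j, (v j + 1).choose 2 ≤ (d + 2).choose 2)

/-- Good classes: for some `k ≥ 10` of the points `√k d < ∑ w`; or the class is below a regular
vector; or `d ≥ 2 ^ 17 (4 m ^ 2 + 8 m + 5) ^ 4` for some `m ≥ 1` such that at most five
multiplicities are larger than `m`, or those larger than `m` have a sum
`≤ 2 d - (4 m ^ 2 + 8 m + 5)`. -/
def Good (N0 : ℕ) {n : ℕ} (d : ℕ) (w : Fin n → ℕ) : Prop :=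
  (∃ (k : ℕ) (e : Fin k ↪ Fin n), 10 ≤ k ∧ √(k : ℝ) * d < ∑ j, (w (e j) : ℝ)) ∨ Below N0 d w ∨
  ∃ m : ℕ, 1 ≤ m ∧ 131072 * (4 * m ^ 2 + 8 * m + 5) ^ 4 ≤ d ∧
    ((Finset.univ.filter fun i => m < w i).card ≤ 5 ∨
      (∑ i, if m < w i then w i else 0) + (4 * m ^ 2 + 8 * m + 5) ≤ 2 * d)

/-- Regular vectors are never special. -/
def RegExp (N0 : ℕ) : Prop :=
  ∀ (k : ℕ) (v : Fin k → ℕ), Regular N0 v → ∀ (K : Type) [Field K] [CharZero K],
    ∃ F : MvPolynomial (Fin k × Fin 2) ℚ, F ≠ 0 ∧ ∀ P : Fin k → Fin 2 → K,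
      aeval (fun ij : Fin k × Fin 2 => P ij.1 ij.2) F ≠ 0 → ∀ d, ExpDim K v P d

theorem reg_exp : ∃ N0 : ℕ, RegExp N0 := by
  obtain ⟨N0, hN0⟩ := Pool.Agent.Y536.SH.tame_exp
  refine ⟨N0, fun k v hv K _ _ => ?_⟩
  rcases hv with h | h | ⟨h0, h1, μ, r, h2, h3, h4⟩ | ⟨μ, h1, h2 | ⟨h0, h2⟩⟩
  · exact hN0 k v (Or.inl h) K
  · exact hN0 k v (Or.inr (Or.inl h)) K
  · obtain ⟨F, hF, hF'⟩ := Pool.Agent.Y205.FW.inf_all h0 h1 h2 h3 h4
    exact ⟨F, hF, fun P hP d => hF' P hP d⟩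
  · obtain ⟨F, hF, hF'⟩ := Pool.Agent.Y205.AV.all_vectors v
    exact ⟨F, hF, fun P hP d => hF' P hP d μ h1 (h2.trans (Nat.le_add_right _ _))⟩
  · obtain ⟨F, hF, hF'⟩ := Pool.Agent.Y205.MD.all_vectors h0 h1
    exact ⟨F, hF, fun P hP d => hF' P hP d (Or.inl h2)⟩

/-- Almost regular vectors have the expected dimension at generic points. -/
theorem almost_exp {N0 : ℕ} (hN0 : RegExp N0) {n : ℕ} {v : Fin n → ℕ}
    (hv : AlmostRegular N0 v) {K : Type} [Field K] [CharZero K] {P : Fin n → Fin 2 → K}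
    (hP : AlgebraicIndependent ℚ (fun ij : Fin n × Fin 2 => P ij.1 ij.2)) (d : ℕ) :
    ExpDim K v P d := by
  obtain ⟨k, e, hr, h1⟩ := hv
  obtain ⟨F, hF, hF'⟩ := hN0 k _ hr K
  have h2 := Pool.Agent.TH885.CO.exp_plus e (w := v) (d := d)
    (fun i hi => h1 i fun ⟨a, ha⟩ => hi (Finset.mem_map.2 ⟨a, Finset.mem_univ _, ha⟩))
    ⟨F, hF, fun Q hQ => hF' Q hQ d⟩ hP
  have h3 : Module.finrank K ↥(Pool.Agent.TH167.SHDefs.sys P d v) =
      (d + 2).choose 2 - ∑ j, (v j + 1).choose 2 := by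
    rw [Pool.Agent.TH885.CO.sys_eq]
    exact h2
  exact h3

/-- Classes below a regular vector have the expected dimension at generic points. -/
theorem below_exp {N0 : ℕ} (hN0 : RegExp N0) {n d : ℕ} {w : Fin n → ℕ} (h : Below N0 d w)
    {K : Type} [Field K] [CharZero K] {P : Fin n → Fin 2 → K}
    (hP : AlgebraicIndependent ℚ (fun ij : Fin n × Fin 2 => P ij.1 ij.2)) : ExpDim K w P d := by
  obtain ⟨k, e, v, hr, h1, hle, h2⟩ := h
  obtain ⟨F, hF, hF'⟩ := hN0 k _ hr K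
  have h3 := Pool.Agent.TH885.CO.exp_plus e (w := w) (d := d)
    (fun i hi => h1 i fun ⟨a, ha⟩ => hi (Finset.mem_map.2 ⟨a, Finset.mem_univ _, ha⟩))
    ⟨F, hF, fun Q hQ => by
      rcases h2 with h2 | h2
      · have e1 : (fun j => w (e j)) = v := funext h2
        rw [e1]
        exact hF' Q hQ d
      · exact exp_mono (hF' Q hQ d) h2 hle⟩ hP
  have h4 : Module.finrank K ↥(Pool.Agent.TH167.SHDefs.sys P d w) =
      (d + 2).choose 2 - ∑ j, (w j + 1).choose 2 := by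
    rw [Pool.Agent.TH885.CO.sys_eq]
    exact h3
  exact h4

/-- Almost regular vectors are below a regular vector in every degree. -/
theorem below_of_almost {N0 n : ℕ} {v : Fin n → ℕ} (hv : AlmostRegular N0 v) (d : ℕ) :
    Below N0 d v := by
  obtain ⟨k, e, hr, h1⟩ := hv
  exact ⟨k, e, _, hr, h1, fun j => le_rfl, Or.inl fun j => rfl⟩

/-- Good standard classes have the expected dimension at generic points. -/
theorem good_exp {N0 : ℕ} (hN0 : RegExp N0) {n d : ℕ} {w : Fin n → ℕ} (hn : 4 ≤ n)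
    (hs : Pool.Agent.Y536.SH.Standard d w) (hG : Good N0 d w) {K : Type} [Field K] [CharZero K]
    {P : Fin n → Fin 2 → K}
    (hP : AlgebraicIndependent ℚ (fun ij : Fin n × Fin 2 => P ij.1 ij.2)) : ExpDim K w P d := by
  obtain ⟨N1, hN1⟩ := Pool.Agent.Y536.SH.tame_exp
  rcases hG with ⟨k, e, hk, h⟩ | h | ⟨m, hm, hd, hF⟩
  · exact Pool.Agent.Y536.SH.good_exp hN1 hn hs (Or.inl ⟨k, e, hk, Or.inl h⟩) hP
  · exact below_exp hN0 h hP
  · exact Pool.Agent.Y536.SH.good_exp hN1 hn hs (Or.inr ⟨m, hm, hd, hF⟩) hP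

end Pool.Agent.Y939.NC
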