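import Pool.Agent.TH167.SH.Irr

set_option autoImplicit false

/-!
# Irreducible curves: reduction to standard classes
-/

namespace Pool.Agent.Y939.NC

open MvPolynomial Pool.Agent.W609 Pool.Agent.W609.CR Pool.Agent.TH167 Pool.Agent.TH167.SH

/-- An irreducible curve which is not a `(-1)`-curve is carried to an irreducible curve of a
standard class at other generic points by quadratic transformations which decrease the degree and
do not increase the multiplicities. -/
theorem std_irr {K : Type} [Field K] [CharZero K] {r m : ℕ} :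
    ∀ (e : ℕ) (P : Fin (r + 4) → Fin 2 → K)
      (_ : AlgebraicIndependent ℚ (fun ij : Fin (r + 4) × Fin 2 => P ij.1 ij.2))
      (w : Fin (r + 4) → ℕ) (_ : Few m e w)
      (G : MvPolynomial (Fin 3) K) (_ : Irreducible G) (_ : G.IsHomogeneous e)
      (_ : ∀ j, Ord (aff (P j)) (w j) G) (_ : ¬ (ip e w e w = -1 ∧ kk e w = 1)),
      ∃ (P1 : Fin (r + 4) → Fin 2 → K) (e1 : ℕ) (w1 : Fin (r + 4) → ℕ)
        (G1 : MvPolynomial (Fin 3) K),
        AlgebraicIndependent ℚ (fun ij : Fin (r + 4) × Fin 2 => P1 ij.1 ij.2) ∧
        Irreducible G1 ∧ G1.IsHomogeneous e1 ∧ (∀ j, Ord (aff (P1 j)) (w1 j) G1) ∧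
        Relation.ReflTransGen Quad (e, w) (e1, w1) ∧ Reduced e1 w1 ∧ e1 ≤ e ∧
        (∀ j, w1 j ≤ w j) := by
  classical
  intro e
  induction e using Nat.strong_induction_on with
  | _ e ih =>
    intro P hP w hw G hG hGe hord hne
    have hwd : ∀ j, w j ≤ e := fun j => van_le hG.ne_zero hGe (hord j).1
    by_cases hpair : ∀ i j, i ≠ j → w i + w j ≤ e
    · by_cases hred : Reduced e w
      · exact ⟨P, e, w, G, hP, hG, hGe, hord, Relation.ReflTransGen.refl, hred, le_rfl,
          fun j => le_rfl⟩
      · obtain ⟨i, hinj, p, hfew, hlt, hwle⟩ := exists_step hw hred hpair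
        obtain ⟨P', hP', hr⟩ := exists_crel hP hinj
        obtain ⟨G', hG', hGe', hord'⟩ := hr.irr hG hGe hord p.p01 p.p02 p.p12
        have hq : Relation.ReflTransGen Quad (e, w) (cd i e w, wcr e i w) :=
          Relation.ReflTransGen.single ⟨i, hinj, p, rfl⟩
        obtain ⟨c1, c2, c3⟩ := quad_inv hq
        simp only at c1 c2 c3
        obtain ⟨P1, e1, w1, G1, a1, a2, a3, a4, a5, a6, a7, a8⟩ :=
          ih (cd i e w) hlt P' hP' (wcr e i w) hfew G' hG' hGe' hord' (by rw [c2, c3]; exact hne)
        exact ⟨P1, e1, w1, G1, a1, a2, a3, a4, hq.trans a5, a6, a7.trans hlt.le,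
          fun j => (a8 j).trans (hwle j)⟩
    · exfalso
      push Not at hpair
      obtain ⟨a, b, hab, hlt⟩ := hpair
      rcases pair_irr (inj_of_alg hP) hG hGe hord hab with h | ⟨he1, ha, hb⟩
      · omega
      · subst he1
        have ha1 : w a = 1 := le_antisymm (hwd a) ha
        have hb1 : w b = 1 := le_antisymm (hwd b) hb
        have hz : ∀ l, l ≠ a → l ≠ b → w l = 0 := by
          intro l hla hlb
          by_contra hne
          have h1 : 1 ≤ w l := Nat.one_le_iff_ne_zero.2 hne
          refine line_two hP hG.ne_zero hGe ![a, b, l] (inj_cons hab hla.symm hlb.symm) ?_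
          intro k
          fin_cases k
          · exact van_mono ha (hord a).1
          · exact van_mono hb (hord b).1
          · exact van_mono h1 (hord l).1
        have hwe : w = fun l => if l = a ∨ l = b then 1 else 0 := by
          funext l
          by_cases h : l = a ∨ l = b
          · rw [if_pos h]
            rcases h with h | h
            · rw [h, ha1]
            · rw [h, hb1]
          · rw [if_neg h]
            push Not at h
            exact hz l h.1 h.2
        have hE := exc_line hP hab
        rw [← hwe] at hE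
        exact hne ⟨self_iff.1 hE.self, can_iff.1 hE.can⟩

end Pool.Agent.Y939.NC
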